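import Pool.Agent.Q284.Sync.Fin

/-!
# Descents and excedances of even and odd permutations: definitions
-/

namespace Pool.Agent.Q284.Sync

open Finset

/-- `des(π) = #{i : π_i > π_{i+1}}` for a permutation `π` of `n` elements (in one-line
notation, positions and values `0,…,n-1`). -/
noncomputable def desNum {n : ℕ} (π : Equiv.Perm (Fin n)) : ℕ :=
  Nat.card {i : Fin n // ∃ h : (i : ℕ) + 1 < n, π ⟨i + 1, h⟩ < π i}

/-- `exc(π) = #{i : π_i > i}`. -/
noncomputable def excNum {n : ℕ} (π : Equiv.Perm (Fin n)) : ℕ :=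
  Nat.card {i : Fin n // i < π i}

/-- `A⁺_{n,k}`: number of even permutations of `n` elements with `k` descents. -/
noncomputable def Aplus (n k : ℕ) : ℕ :=
  Nat.card {π : Equiv.Perm (Fin n) // Equiv.Perm.sign π = 1 ∧ desNum π = k}

/-- `A⁻_{n,k}`: number of odd permutations of `n` elements with `k` descents. -/
noncomputable def Aminus (n k : ℕ) : ℕ :=
  Nat.card {π : Equiv.Perm (Fin n) // Equiv.Perm.sign π = -1 ∧ desNum π = k}

/-- `P_{n,k}`: number of even permutations of `n` elements with `k` excedances. -/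
noncomputable def Pnum (n k : ℕ) : ℕ :=
  Nat.card {π : Equiv.Perm (Fin n) // Equiv.Perm.sign π = 1 ∧ excNum π = k}

/-- `Q_{n,k}`: number of odd permutations of `n` elements with `k` excedances. -/
noncomputable def Qnum (n k : ℕ) : ℕ :=
  Nat.card {π : Equiv.Perm (Fin n) // Equiv.Perm.sign π = -1 ∧ excNum π = k}

/-- The sequences `(a_k)_{k=0}^m` and `(b_k)_{k=0}^m` are strongly synchronised: for every
`1 ≤ k ≤ m-1`, `min(a_k,b_k)² ≥ max(a_{k-1},b_{k-1}) · max(a_{k+1},b_{k+1})`. -/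
def StrongSync (m : ℕ) (a b : ℕ → ℕ) : Prop :=
  ∀ k, 1 ≤ k → k + 1 ≤ m →
    max (a (k - 1)) (b (k - 1)) * max (a (k + 1)) (b (k + 1)) ≤ (min (a k) (b k)) ^ 2

theorem desNum_eq {n : ℕ} (π : Equiv.Perm (Fin (n + 1))) :
    desNum π = Pool.Agent.H24R3.Eul.des π := by
  unfold desNum Pool.Agent.H24R3.Eul.des
  rw [← Fintype.card_subtype, ← Nat.card_eq_fintype_card]
  apply Nat.card_congr
  refine ⟨fun x => ⟨⟨x.1.1, ?_⟩, ?_⟩, fun x => ⟨x.1.castSucc, ?_⟩, ?_, ?_⟩
  · obtain ⟨h, -⟩ := x.2; omega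
  · obtain ⟨h, h2⟩ := x.2
    exact h2
  · exact ⟨by have := x.1.2; simp, x.2⟩
  · rintro ⟨x, hx⟩; rfl
  · rintro ⟨x, hx⟩; rfl

theorem excNum_eq {n : ℕ} (π : Equiv.Perm (Fin n)) : excNum π = ex π := by
  unfold excNum ex
  rw [Nat.card_eq_fintype_card, Fintype.card_subtype]

theorem two_plus {n : ℕ} (f : Equiv.Perm (Fin n) → ℕ) (k : ℕ) :
    2 * (Nat.card {π : Equiv.Perm (Fin n) // Equiv.Perm.sign π = 1 ∧ f π = k} : ℤ) =
      ∑ π : Equiv.Perm (Fin n), (if f π = k then (1 : ℤ) else 0) +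
      ∑ π : Equiv.Perm (Fin n), (Equiv.Perm.sign π : ℤ) * (if f π = k then (1 : ℤ) else 0) := by
  classical
  rw [Nat.card_eq_fintype_card, Fintype.card_subtype, Finset.card_filter]
  push_cast
  rw [Finset.mul_sum, ← Finset.sum_add_distrib]
  apply Finset.sum_congr rfl
  intro π _
  rcases Int.units_eq_one_or (Equiv.Perm.sign π) with h | h
  · rw [h]
    by_cases hk : f π = k <;> simp [hk]
  · rw [h]
    by_cases hk : f π = k <;> simp [hk]

theorem two_minus {n : ℕ} (f : Equiv.Perm (Fin n) → ℕ) (k : ℕ) :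
    2 * (Nat.card {π : Equiv.Perm (Fin n) // Equiv.Perm.sign π = -1 ∧ f π = k} : ℤ) =
      ∑ π : Equiv.Perm (Fin n), (if f π = k then (1 : ℤ) else 0) +
      -∑ π : Equiv.Perm (Fin n), (Equiv.Perm.sign π : ℤ) * (if f π = k then (1 : ℤ) else 0) := by
  classical
  rw [Nat.card_eq_fintype_card, Fintype.card_subtype, Finset.card_filter]
  push_cast
  rw [Finset.mul_sum, ← Finset.sum_neg_distrib, ← Finset.sum_add_distrib]
  apply Finset.sum_congr rfl
  intro π _
  rcases Int.units_eq_one_or (Equiv.Perm.sign π) with h | h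
  · rw [h]
    by_cases hk : f π = k <;> simp [hk]
  · rw [h]
    by_cases hk : f π = k <;> simp [hk]

open Pool.Agent.H24R3.Eul in
theorem Aplus_eq (n k : ℕ) : 2 * (Aplus (n + 1) k : ℤ) = E n k + D n k := by
  unfold Aplus
  simp only [desNum_eq]
  rw [two_plus des k, ← E_sum]
  rfl

open Pool.Agent.H24R3.Eul in
theorem Aminus_eq (n k : ℕ) : 2 * (Aminus (n + 1) k : ℤ) = E n k + -D n k := by
  unfold Aminus
  simp only [desNum_eq]
  rw [two_minus des k, ← E_sum]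
  rfl

open Pool.Agent.H24R3.Eul in
theorem Pnum_eq (n k : ℕ) : 2 * (Pnum (n + 1) k : ℤ) = E n k + YY n k := by
  unfold Pnum
  simp only [excNum_eq]
  rw [two_plus ex k, ← XX_eq]
  rfl

open Pool.Agent.H24R3.Eul in
theorem Qnum_eq (n k : ℕ) : 2 * (Qnum (n + 1) k : ℤ) = E n k + -YY n k := by
  unfold Qnum
  simp only [excNum_eq]
  rw [two_minus ex k, ← XX_eq]
  rfl

theorem strong_of_syncI (n : ℕ) (a b : ℕ → ℕ) (p q : ℕ → ℤ) (ha : ∀ k, 2 * (a k : ℤ) = p k)
    (hb : ∀ k, 2 * (b k : ℤ) = q k) (h : SyncI n p q) : StrongSync n a b := by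
  intro k hk1 hk2
  obtain ⟨k, rfl⟩ : ∃ j, k = j + 1 := ⟨k - 1, by omega⟩
  have h1 := h k (by omega)
  rw [Nat.add_sub_cancel]
  have mx : ∀ j, max (p j) (q j) = 2 * ((max (a j) (b j) : ℕ) : ℤ) := by
    intro j
    rw [← ha, ← hb, Nat.cast_max, mul_max_of_nonneg _ _ (by norm_num)]
  have mn : ∀ j, min (p j) (q j) = 2 * ((min (a j) (b j) : ℕ) : ℤ) := by
    intro j
    rw [← ha, ← hb, Nat.cast_min, mul_min_of_nonneg _ _ (by norm_num)]
  rw [mx, mx, mn] at h1
  have h2 : ((max (a k) (b k) : ℕ) : ℤ) * ((max (a (k + 2)) (b (k + 2)) : ℕ) : ℤ) ≤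
      ((min (a (k + 1)) (b (k + 1)) : ℕ) : ℤ) ^ 2 := by
    nlinarith
  exact_mod_cast h2

end Pool.Agent.Q284.Sync
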