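import Pool.Agent.Q284.Sync.Signed

/-!
# Excedances: Eulerian recurrence and the signed count
-/

namespace Pool.Agent.Q284.Sync

open Finset
open Pool.Agent.H24R3.Eul

/-- number of excedances -/
def ex {n : ℕ} (π : Equiv.Perm (Fin n)) : ℕ := (univ.filter (fun i => i < π i)).card

theorem ex_zero {n : ℕ} (e : Equiv.Perm (Fin n)) :
    ex (Equiv.Perm.decomposeFin.symm (0, e)) = ex e := by
  unfold ex
  rw [Finset.card_filter, Finset.card_filter, Fin.sum_univ_succ]
  rw [Equiv.Perm.decomposeFin_symm_apply_zero, if_neg (lt_irrefl _), zero_add]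
  apply Finset.sum_congr rfl
  intro i _
  rw [Equiv.Perm.decomposeFin_symm_apply_succ]
  simp

theorem ex_succ {n : ℕ} (e : Equiv.Perm (Fin n)) (j : Fin n) :
    ex (Equiv.Perm.decomposeFin.symm (j.succ, e)) + (if e.symm j < j then 1 else 0) =
      ex e + 1 := by
  unfold ex
  rw [Finset.card_filter, Finset.card_filter, Fin.sum_univ_succ]
  rw [Equiv.Perm.decomposeFin_symm_apply_zero, if_pos (Fin.succ_pos j)]
  have h1 : ∀ i : Fin n, (if i.succ < Equiv.Perm.decomposeFin.symm (j.succ, e) i.succ then 1 else 0) =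
      if i = e.symm j then 0 else (if i < e i then 1 else 0) := by
    intro i
    rw [Equiv.Perm.decomposeFin_symm_apply_succ]
    by_cases hi : i = e.symm j
    · rw [if_pos hi, hi, Equiv.apply_symm_apply, Equiv.swap_apply_right, if_neg (Fin.not_lt_zero _)]
    · have h2 : e i ≠ j := by
        intro h
        apply hi
        rw [← h, Equiv.symm_apply_apply]
      rw [if_neg hi, Equiv.swap_apply_of_ne_of_ne (Fin.succ_ne_zero _)
        (fun h => h2 (Fin.succ_injective _ h))]
      simp
  simp only [h1]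
  have h2 : ∑ i : Fin n, (if i < e i then 1 else 0) =
      ∑ i : Fin n, ((if i = e.symm j then 0 else (if i < e i then 1 else 0)) +
        (if i = e.symm j then (if e.symm j < j then 1 else 0) else 0)) := by
    apply Finset.sum_congr rfl
    intro i _
    by_cases hi : i = e.symm j
    · rw [if_pos hi, if_pos hi, hi, Equiv.apply_symm_apply]; simp
    · rw [if_neg hi, if_neg hi]; simp
  rw [h2, Finset.sum_add_distrib, Finset.sum_ite_eq' univ (e.symm j)]
  simp only [mem_univ, if_true]
  ring

theorem sum_exc_places {n : ℕ} (e : Equiv.Perm (Fin n)) (h : ℕ → ℤ) :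
    ∑ j : Fin n, h (ex (Equiv.Perm.decomposeFin.symm (j.succ, e))) =
      (ex e : ℤ) * h (ex e) + ((n : ℤ) - ex e) * h (ex e + 1) := by
  have h1 : ∀ j : Fin n, h (ex (Equiv.Perm.decomposeFin.symm (j.succ, e))) =
      (if e.symm j < j then (1 : ℤ) else 0) * (h (ex e) - h (ex e + 1)) + h (ex e + 1) := by
    intro j
    have := ex_succ e j
    split_ifs at this ⊢ with hj
    · rw [show ex (Equiv.Perm.decomposeFin.symm (j.succ, e)) = ex e by omega]; ring
    · rw [show ex (Equiv.Perm.decomposeFin.symm (j.succ, e)) = ex e + 1 by omega]; ring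
  simp only [h1]
  rw [Finset.sum_add_distrib, ← Finset.sum_mul]
  have h2 : ∑ j : Fin n, (if e.symm j < j then (1 : ℤ) else 0) = ex e := by
    unfold ex
    rw [Finset.card_filter]
    push_cast
    rw [← Equiv.sum_comp e]
    simp
  rw [h2]
  simp only [Finset.sum_const, Finset.card_univ, Fintype.card_fin, nsmul_eq_mul]
  ring

theorem exc_rec {n : ℕ} (g : ℕ → ℤ) :
    ∑ σ : Equiv.Perm (Fin (n + 1)), g (ex σ) =
      ∑ e : Equiv.Perm (Fin n), ((1 + (ex e : ℤ)) * g (ex e) +
        ((n : ℤ) - ex e) * g (ex e + 1)) := by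
  rw [← Equiv.sum_comp Equiv.Perm.decomposeFin.symm, Fintype.sum_prod_type_right]
  apply Finset.sum_congr rfl
  intro e _
  rw [Fin.sum_univ_succ, ex_zero, sum_exc_places]
  ring

theorem exc_srec {n : ℕ} (g : ℕ → ℤ) :
    ∑ σ : Equiv.Perm (Fin (n + 1)), (Equiv.Perm.sign σ : ℤ) * g (ex σ) =
      ∑ e : Equiv.Perm (Fin n), (Equiv.Perm.sign e : ℤ) * ((1 - (ex e : ℤ)) * g (ex e) -
        ((n : ℤ) - ex e) * g (ex e + 1)) := by
  rw [← Equiv.sum_comp Equiv.Perm.decomposeFin.symm, Fintype.sum_prod_type_right]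
  apply Finset.sum_congr rfl
  intro e _
  rw [Fin.sum_univ_succ, ex_zero]
  simp only [Equiv.Perm.decomposeFin.symm_sign, Fin.succ_ne_zero, if_true, if_false]
  push_cast
  have h1 : ∑ i : Fin n, (-1 * (Equiv.Perm.sign e : ℤ)) *
      g (ex (Equiv.Perm.decomposeFin.symm (i.succ, e))) =
      (-1 * (Equiv.Perm.sign e : ℤ)) * ((ex e : ℤ) * g (ex e) + ((n : ℤ) - ex e) * g (ex e + 1)) := by
    rw [← Finset.mul_sum, sum_exc_places]
  rw [h1]
  ring

/-- excedance counts of `n + 1` elements -/
noncomputable def XX (n k : ℕ) : ℤ :=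
  ∑ τ : Equiv.Perm (Fin (n + 1)), (if ex τ = k then 1 else 0)

/-- signed excedance counts of `n + 1` elements -/
noncomputable def YY (n k : ℕ) : ℤ :=
  ∑ τ : Equiv.Perm (Fin (n + 1)), (Equiv.Perm.sign τ : ℤ) * (if ex τ = k then 1 else 0)

theorem ex_fin1 (τ : Equiv.Perm (Fin 1)) : ex τ = 0 := by
  unfold ex
  rw [Finset.card_eq_zero, Finset.filter_eq_empty_iff]
  intro i _ h
  have := (τ i).2
  have := i.2
  rw [Fin.lt_def] at h
  omega

theorem XX_zero (k : ℕ) : XX 0 k = if k = 0 then 1 else 0 := by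
  unfold XX
  simp only [ex_fin1]
  simp [eq_comm]

theorem YY_zero (k : ℕ) : YY 0 k = if k = 0 then 1 else 0 := by
  unfold YY
  simp only [ex_fin1]
  have h1 : ∀ x : Equiv.Perm (Fin (0 + 1)), x = 1 := by
    intro x
    ext i
    have := (x i).2
    have := ((1 : Equiv.Perm (Fin (0 + 1))) i).2
    omega
  rw [Fintype.sum_eq_single (1 : Equiv.Perm (Fin (0 + 1))) (fun x hx => absurd (h1 x) hx)]
  simp [eq_comm]

theorem XX_succ_zero (n : ℕ) : XX (n + 1) 0 = XX n 0 := by
  unfold XX
  rw [exc_rec (fun x => if x = 0 then 1 else 0)]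
  apply Finset.sum_congr rfl
  intro e _
  by_cases h : ex e = 0
  · simp [h]
  · simp [h]

theorem XX_succ (n k : ℕ) : XX (n + 1) (k + 1) =
    ((k : ℤ) + 2) * XX n (k + 1) + ((n : ℤ) + 1 - k) * XX n k := by
  unfold XX
  rw [exc_rec (fun x => if x = k + 1 then 1 else 0), Finset.mul_sum, Finset.mul_sum,
    ← Finset.sum_add_distrib]
  apply Finset.sum_congr rfl
  intro e _
  by_cases h : ex e = k + 1
  · simp [h]; ring
  · by_cases h' : ex e = k
    · simp [h']
    · simp [h, h']

theorem YY_succ_zero (n : ℕ) : YY (n + 1) 0 = YY n 0 := by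
  unfold YY
  rw [exc_srec (fun x => if x = 0 then 1 else 0)]
  apply Finset.sum_congr rfl
  intro e _
  by_cases h : ex e = 0
  · simp [h]
  · simp [h]

theorem YY_succ (n k : ℕ) : YY (n + 1) (k + 1) =
    -(k : ℤ) * YY n (k + 1) - ((n : ℤ) + 1 - k) * YY n k := by
  unfold YY
  rw [exc_srec (fun x => if x = k + 1 then 1 else 0), Finset.mul_sum, Finset.mul_sum,
    ← Finset.sum_sub_distrib]
  apply Finset.sum_congr rfl
  intro e _
  by_cases h : ex e = k + 1
  · simp [h]; ring
  · by_cases h' : ex e = k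
    · simp [h']; ring
    · simp [h, h']

theorem YY_eq (n k : ℕ) : YY n k = (-1) ^ k * (n.choose k : ℤ) := by
  induction n generalizing k with
  | zero =>
    rw [YY_zero]
    cases k with
    | zero => simp
    | succ k => simp
  | succ n ih =>
    cases k with
    | zero => rw [YY_succ_zero, ih]; simp
    | succ k =>
      rw [YY_succ, ih, ih, Nat.choose_succ_succ]
      have h1 : ((n.choose (k + 1) : ℕ) : ℤ) * (k + 1) = (n.choose k : ℤ) * (n - k) := by
        rcases le_or_gt k n with h | h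
        · have := Nat.choose_succ_right_eq n k
          have h2 : ((n - k : ℕ) : ℤ) = (n : ℤ) - k := by push_cast [h]; ring
          rw [← h2]
          exact_mod_cast this
        · rw [Nat.choose_eq_zero_of_lt h, Nat.choose_eq_zero_of_lt (by omega)]
          simp
      push_cast
      rw [pow_succ]
      linear_combination (-1 : ℤ) ^ k * h1

theorem E_zero_succ (k : ℕ) : E 0 (k + 1) = 0 := E_big 0 (k + 1) (by omega)

theorem E_rec' (n k : ℕ) :
    E (n + 1) (k + 1) = ((k : ℤ) + 2) * E n (k + 1) + ((n : ℤ) + 1 - k) * E n k := by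
  rcases le_or_gt k n with h | h
  · exact E_rec n k h
  · rw [E_big _ _ (show n + 1 < k + 1 by omega), E_big _ _ (show n < k + 1 by omega),
      E_big _ _ h]
    simp

theorem XX_eq (n k : ℕ) : XX n k = E n k := by
  induction n generalizing k with
  | zero =>
    rw [XX_zero]
    cases k with
    | zero => rw [E_zero_zero]; simp
    | succ k => rw [E_zero_succ]; simp
  | succ n ih =>
    cases k with
    | zero => rw [XX_succ_zero, ih, E_succ_zero]
    | succ k => rw [XX_succ, ih, ih, E_rec']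

end Pool.Agent.Q284.Sync
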