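import Pool.Agent.Q284.Sync.Ratio

/-!
# Strong synchronisation
-/

namespace Pool.Agent.Q284.Sync

open Finset
open Pool.Agent.H24R3.Eul

theorem choose_bound (n : ℕ) (hn : 7 ≤ n) :
    ∀ k, 1 ≤ k → k + 1 ≤ n → 4 * ((n : ℤ) + 1) * (n.choose k : ℤ) ≤ E n k := by
  induction n, hn using Nat.le_induction with
  | base =>
    have : ∀ k < 7, 1 ≤ k → 4 * (((7 : ℕ) : ℤ) + 1) * ((Nat.choose 7 k : ℕ) : ℤ) ≤ eC 7 k := by
      decide
    intro k hk1 hk2
    rw [E_eC]
    exact this k (by omega) hk1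
  | succ n hn ih =>
    intro k hk1 hk2
    obtain ⟨k, rfl⟩ : ∃ j, k = j + 1 := ⟨k - 1, by omega⟩
    have hn' : (7 : ℤ) ≤ n := by exact_mod_cast hn
    have hN : (0 : ℤ) < (n : ℤ) + 1 := by omega
    have hE1 := E_one_ge n hn
    have hE1' := E_sub_one_ge n hn
    rw [E_rec', Nat.choose_succ_succ]
    refine le_of_mul_le_mul_left ?_ hN
    rcases Nat.eq_zero_or_pos k with h0 | h0
    · subst h0
      rw [E_zero_right]
      simp only [Nat.choose_zero_right, Nat.choose_one_right, zero_add, Nat.succ_eq_add_one]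
      push_cast
      nlinarith
    · rcases Nat.lt_or_ge (k + 1) n with h1 | h1
      · have b0 := ih k h0 (by omega)
        have b1 := ih (k + 1) (by omega) (by omega)
        have hEa := E_nonneg n k
        have hEb := E_nonneg n (k + 1)
        have hk0 : (1 : ℤ) ≤ k := by exact_mod_cast h0
        have hkn : (k : ℤ) + 2 ≤ n := by exact_mod_cast h1
        push_cast
        calc ((n : ℤ) + 1) * (4 * ((n : ℤ) + 1 + 1) * ((n.choose k : ℤ) + (n.choose (k + 1) : ℤ)))
            = ((n : ℤ) + 2) * (4 * ((n : ℤ) + 1) * (n.choose k : ℤ) +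
              4 * ((n : ℤ) + 1) * (n.choose (k + 1) : ℤ)) := by ring
          _ ≤ ((n : ℤ) + 2) * (E n k + E n (k + 1)) := by gcongr
          _ ≤ _ := by
            have c1 : ((n : ℤ) + 2) ≤ ((n : ℤ) + 1) * ((k : ℤ) + 2) := by nlinarith
            have c2 : ((n : ℤ) + 2) ≤ ((n : ℤ) + 1) * ((n : ℤ) + 1 - k) := by nlinarith
            have d1 := mul_le_mul_of_nonneg_right c1 hEb
            have d2 := mul_le_mul_of_nonneg_right c2 hEa
            linarith
      · obtain rfl : n = k + 1 := by omega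
        rw [E_diag, Nat.choose_self, Nat.choose_succ_self_right]
        have e : k + 1 - 1 = k := by omega
        rw [e] at hE1'
        push_cast at hE1' hn' ⊢
        nlinarith

/-- the abstract synchronisation inequality -/
theorem sync_w (n : ℕ) (hn : 7 ≤ n) (w : ℕ → ℤ) (hw : ∀ k, 0 ≤ w k) (h0 : w 0 ≤ 1)
    (h1 : w n ≤ 1) (hb : ∀ k, 1 ≤ k → k + 1 ≤ n → 4 * ((n : ℤ) + 1) * w k ≤ E n k)
    (k : ℕ) (hk : k + 2 ≤ n) :
    (E n k + w k) * (E n (k + 2) + w (k + 2)) ≤ (E n (k + 1) - w (k + 1)) ^ 2 := by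
  have hn' : (7 : ℤ) ≤ n := by exact_mod_cast hn
  obtain ⟨M, hM⟩ : ∃ M : ℤ, M = 4 * ((n : ℤ) + 1) := ⟨_, rfl⟩
  have hMpos : 0 < M := by omega
  have hk1 := hb (k + 1) (by omega) (by omega)
  rw [← hM] at hk1
  have hEa := E_nonneg n k
  have hEb := E_nonneg n (k + 1)
  have hEc := E_nonneg n (k + 2)
  have hwa := hw k
  have hwb := hw (k + 1)
  have hwc := hw (k + 2)
  have hN := newton n k hk
  have lower : (M - 1) ^ 2 * E n (k + 1) ^ 2 ≤ M ^ 2 * (E n (k + 1) - w (k + 1)) ^ 2 := by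
    have g1 : (M - 1) * E n (k + 1) ≤ M * (E n (k + 1) - w (k + 1)) := by linarith
    have g2 : 0 ≤ (M - 1) * E n (k + 1) := mul_nonneg (by omega) hEb
    calc _ = ((M - 1) * E n (k + 1)) ^ 2 := by ring
      _ ≤ (M * (E n (k + 1) - w (k + 1))) ^ 2 := pow_le_pow_left₀ g2 g1 2
      _ = _ := by ring
  refine le_of_mul_le_mul_left ?_ (show (0 : ℤ) < M ^ 2 by positivity)
  refine le_trans ?_ lower
  have hkn : (k : ℤ) + 2 ≤ n := by exact_mod_cast hk
  have hk0 : (0 : ℤ) ≤ k := by positivity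
  rcases Nat.eq_zero_or_pos k with hz | hz
  · subst hz
    have hc := hb 2 (by omega) (by omega)
    rw [← hM] at hc
    rw [E_zero_right] at hN ⊢
    simp only [zero_add] at *
    refine le_of_mul_le_mul_left ?_ (show (0 : ℤ) < n by omega)
    have g1 : (1 + w 0) * (E n 2 + w 2) ≤ 2 * (E n 2 + w 2) :=
      mul_le_mul_of_nonneg_right (by linarith) (by linarith)
    have g2 : M * (E n 2 + w 2) ≤ (M + 1) * E n 2 := by linarith
    push_cast at hN
    calc (n : ℤ) * (M ^ 2 * ((1 + w 0) * (E n 2 + w 2)))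
        ≤ n * (M ^ 2 * (2 * (E n 2 + w 2))) := by gcongr
      _ = 2 * n * M * (M * (E n 2 + w 2)) := by ring
      _ ≤ 2 * n * M * ((M + 1) * E n 2) := by gcongr
      _ = M * (M + 1) * ((0 + 2) * ((n : ℤ) - 0) * (1 * E n 2)) := by ring
      _ ≤ M * (M + 1) * ((0 + 1) * ((n : ℤ) - 0 - 1) * E n 1 ^ 2) := by
        refine mul_le_mul_of_nonneg_left ?_ (by positivity)
        simp only [zero_add]
        exact hN
      _ = (M * (M + 1) * ((n : ℤ) - 1)) * E n 1 ^ 2 := by ring
      _ ≤ (n * (M - 1) ^ 2) * E n 1 ^ 2 := by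
        apply mul_le_mul_of_nonneg_right _ (by positivity)
        rw [hM]; nlinarith
      _ = _ := by ring
  · have ha := hb k hz (by omega)
    rw [← hM] at ha
    have g3 : M * (E n k + w k) ≤ (M + 1) * E n k := by linarith
    rcases Nat.lt_or_ge (k + 2) n with h3 | h3
    · have hc := hb (k + 2) (by omega) (by omega)
      rw [← hM] at hc
      have g2 : M * (E n (k + 2) + w (k + 2)) ≤ (M + 1) * E n (k + 2) := by linarith
      obtain ⟨Q, hQ⟩ : ∃ Q : ℤ, Q = ((k : ℤ) + 1) * ((n : ℤ) - k - 1) := ⟨_, rfl⟩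
      have hP : ((k : ℤ) + 2) * ((n : ℤ) - k) = Q + (n + 1) := by rw [hQ]; ring
      have hQ0 : 0 ≤ Q := by
        rw [hQ]; exact mul_nonneg (by omega) (by omega)
      have hQ1 : 4 * Q ≤ (n : ℤ) ^ 2 := by
        rw [hQ]; nlinarith [sq_nonneg (((k : ℤ) + 1) - ((n : ℤ) - k - 1))]
      rw [hP, ← hQ] at hN
      refine le_of_mul_le_mul_left ?_ (show (0 : ℤ) < Q + (n + 1) by omega)
      calc (Q + (n + 1)) * (M ^ 2 * ((E n k + w k) * (E n (k + 2) + w (k + 2))))
          = (Q + (n + 1)) * ((M * (E n k + w k)) * (M * (E n (k + 2) + w (k + 2)))) := by ring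
        _ ≤ (Q + (n + 1)) * (((M + 1) * E n k) * ((M + 1) * E n (k + 2))) := by gcongr
        _ = (M + 1) ^ 2 * ((Q + (n + 1)) * (E n k * E n (k + 2))) := by ring
        _ ≤ (M + 1) ^ 2 * (Q * E n (k + 1) ^ 2) :=
          mul_le_mul_of_nonneg_left hN (by positivity)
        _ = ((M + 1) ^ 2 * Q) * E n (k + 1) ^ 2 := by ring
        _ ≤ ((M - 1) ^ 2 * (Q + (n + 1))) * E n (k + 1) ^ 2 := by
          apply mul_le_mul_of_nonneg_right _ (by positivity)
          have q1 : 4 * M * Q ≤ (M - 1) ^ 2 * (n + 1) := by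
            calc 4 * M * Q = M * (4 * Q) := by ring
              _ ≤ M * (n : ℤ) ^ 2 := by gcongr
              _ ≤ _ := by rw [hM]; nlinarith
          nlinarith
        _ = _ := by ring
    · obtain rfl : n = k + 2 := by omega
      rw [E_diag] at hN ⊢
      have hKc : ((k + 2 : ℕ) : ℤ) = (k : ℤ) + 2 := by push_cast; ring
      rw [hKc] at hN hM hn'
      refine le_of_mul_le_mul_left ?_ (show (0 : ℤ) < (k : ℤ) + 2 by omega)
      have g1 : (E (k + 2) k + w k) * (1 + w (k + 2)) ≤ (E (k + 2) k + w k) * 2 :=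
        mul_le_mul_of_nonneg_left (by linarith) (by linarith)
      calc ((k : ℤ) + 2) * (M ^ 2 * ((E (k + 2) k + w k) * (1 + w (k + 2))))
          ≤ ((k : ℤ) + 2) * (M ^ 2 * ((E (k + 2) k + w k) * 2)) := by gcongr
        _ = 2 * ((k : ℤ) + 2) * M * (M * (E (k + 2) k + w k)) := by ring
        _ ≤ 2 * ((k : ℤ) + 2) * M * ((M + 1) * E (k + 2) k) := by gcongr
        _ = M * (M + 1) * (((k : ℤ) + 2) * ((k : ℤ) + 2 - k) * (E (k + 2) k * 1)) := by ring
        _ ≤ M * (M + 1) * (((k : ℤ) + 1) * ((k : ℤ) + 2 - k - 1) * E (k + 2) (k + 1) ^ 2) :=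
          mul_le_mul_of_nonneg_left hN (by positivity)
        _ = (M * (M + 1) * ((k : ℤ) + 1)) * E (k + 2) (k + 1) ^ 2 := by ring
        _ ≤ (((k : ℤ) + 2) * (M - 1) ^ 2) * E (k + 2) (k + 1) ^ 2 := by
          apply mul_le_mul_of_nonneg_right _ (by positivity)
          rw [hM]; nlinarith
        _ = _ := by ring

/-- synchronisation of integer sequences with doubled values -/
def SyncI (n : ℕ) (p q : ℕ → ℤ) : Prop :=
  ∀ k, k + 2 ≤ n → max (p k) (q k) * max (p (k + 2)) (q (k + 2)) ≤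
    min (p (k + 1)) (q (k + 1)) ^ 2

theorem syncI_of_bounds (n : ℕ) (hn : 7 ≤ n) (u v : ℕ → ℤ)
    (hu0 : |u 0| ≤ 1) (hu1 : |u n| ≤ 1) (hv0 : |v 0| ≤ 1) (hv1 : |v n| ≤ 1)
    (hu : ∀ k, 1 ≤ k → k + 1 ≤ n → 4 * ((n : ℤ) + 1) * |u k| ≤ E n k)
    (hv : ∀ k, 1 ≤ k → k + 1 ≤ n → 4 * ((n : ℤ) + 1) * |v k| ≤ E n k) :
    SyncI n (fun k => E n k + u k) (fun k => E n k + v k) := by
  intro k hk
  have key := sync_w n hn (fun k => max |u k| |v k|) (fun k => le_max_of_le_left (abs_nonneg _))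
    (max_le hu0 hv0) (max_le hu1 hv1) (fun k h1 h2 => by
      rcases max_choice |u k| |v k| with h | h
      · rw [h]; exact hu k h1 h2
      · rw [h]; exact hv k h1 h2) k hk
  simp only at key ⊢
  have up : ∀ j, max (E n j + u j) (E n j + v j) ≤ E n j + max |u j| |v j| := by
    intro j
    apply max_le
    · have := le_abs_self (u j); have := le_max_left |u j| |v j|; linarith
    · have := le_abs_self (v j); have := le_max_right |u j| |v j|; linarith
  have lo : ∀ j, E n j - max |u j| |v j| ≤ min (E n j + u j) (E n j + v j) := by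
    intro j
    apply le_min
    · have := neg_abs_le (u j); have := le_max_left |u j| |v j|; linarith
    · have := neg_abs_le (v j); have := le_max_right |u j| |v j|; linarith
  have hpos : 0 ≤ E n (k + 1) - max |u (k + 1)| |v (k + 1)| := by
    have h1 := hu (k + 1) (by omega) (by omega)
    have h2 := hv (k + 1) (by omega) (by omega)
    have hn' : (7 : ℤ) ≤ n := by exact_mod_cast hn
    have a1 := abs_nonneg (u (k + 1))
    have a2 := abs_nonneg (v (k + 1))
    rcases max_choice |u (k + 1)| |v (k + 1)| with h | h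
    · rw [h]; nlinarith
    · rw [h]; nlinarith
  have hE0 : ∀ j, 0 ≤ E n j + max |u j| |v j| := fun j =>
    add_nonneg (E_nonneg n j) (le_max_of_le_left (abs_nonneg _))
  by_cases hneg : 0 ≤ max (E n k + u k) (E n k + v k)
  · calc _ ≤ max (E n k + u k) (E n k + v k) * (E n (k + 2) + max |u (k + 2)| |v (k + 2)|) :=
        mul_le_mul_of_nonneg_left (up _) hneg
      _ ≤ (E n k + max |u k| |v k|) * (E n (k + 2) + max |u (k + 2)| |v (k + 2)|) :=
        mul_le_mul_of_nonneg_right (up _) (hE0 _)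
      _ ≤ _ := key
      _ ≤ _ := pow_le_pow_left₀ hpos (lo _) 2
  · push Not at hneg
    by_cases hneg2 : 0 ≤ max (E n (k + 2) + u (k + 2)) (E n (k + 2) + v (k + 2))
    · have := mul_nonpos_of_nonpos_of_nonneg hneg.le hneg2
      have h2 := sq_nonneg (min (E n (k + 1) + u (k + 1)) (E n (k + 1) + v (k + 1)))
      linarith
    · push Not at hneg2
      have b1 : 0 ≤ max |u k| |v k| := le_max_of_le_left (abs_nonneg _)
      exfalso
      -- the maxima are nonnegative because `E n k ≥ |u k|`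
      rcases Nat.eq_zero_or_pos k with h0 | h0
      · subst h0
        rw [E_zero_right] at hneg
        have := le_max_left (1 + u 0) (1 + v 0)
        have := neg_abs_le (u 0)
        linarith
      · have h1 := hu k h0 (by omega)
        have a1 := abs_nonneg (u k)
        have a3 := neg_abs_le (u k)
        have hn' : (7 : ℤ) ≤ n := by exact_mod_cast hn
        have := le_max_left (E n k + u k) (E n k + v k)
        nlinarith

/-- signed binomials -/
def yC (n k : ℕ) : ℤ := (-1) ^ k * (n.choose k : ℤ)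

theorem small1 : ∀ n < 12, ∀ k < 12, k + 2 ≤ n →
    max (eC n k + dC n k) (eC n k + -dC n k) *
      max (eC n (k + 2) + dC n (k + 2)) (eC n (k + 2) + -dC n (k + 2)) ≤
    min (eC n (k + 1) + dC n (k + 1)) (eC n (k + 1) + -dC n (k + 1)) ^ 2 := by
  decide +kernel

theorem small2 : ∀ n < 12, ∀ k < 12, k + 2 ≤ n →
    max (eC n k + dC n k) (eC n k + yC n k) *
      max (eC n (k + 2) + dC n (k + 2)) (eC n (k + 2) + yC n (k + 2)) ≤
    min (eC n (k + 1) + dC n (k + 1)) (eC n (k + 1) + yC n (k + 1)) ^ 2 := by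
  decide +kernel

theorem small3 : ∀ n < 12, ∀ k < 12, k + 2 ≤ n →
    max (eC n k + -dC n k) (eC n k + -yC n k) *
      max (eC n (k + 2) + -dC n (k + 2)) (eC n (k + 2) + -yC n (k + 2)) ≤
    min (eC n (k + 1) + -dC n (k + 1)) (eC n (k + 1) + -yC n (k + 1)) ^ 2 := by
  decide +kernel

theorem Y_bounds (n : ℕ) : |YY n 0| ≤ 1 ∧ |YY n n| ≤ 1 := by
  rw [YY_eq, YY_eq]
  simp

theorem D_bounds (n : ℕ) : |D n 0| ≤ 1 ∧ |D n n| ≤ 1 := by
  rw [abs_D_diag, D_zero_right]
  simp

theorem Y_int (n : ℕ) (hn : 7 ≤ n) (k : ℕ) (h1 : 1 ≤ k) (h2 : k + 1 ≤ n) :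
    4 * ((n : ℤ) + 1) * |YY n k| ≤ E n k := by
  have : |YY n k| = (n.choose k : ℤ) := by
    rw [YY_eq, abs_mul, abs_pow, abs_neg, abs_one, one_pow, one_mul, Nat.abs_cast]
  rw [this]
  exact choose_bound n hn k h1 h2

theorem sync_main1 (n : ℕ) : SyncI n (fun k => E n k + D n k) (fun k => E n k + -D n k) := by
  rcases Nat.lt_or_ge n 12 with h | h
  · intro k hk
    simp only [E_eC, D_dC]
    exact small1 n h k (by omega) hk
  · have hR := RB_all n h
    exact syncI_of_bounds n (by omega) (D n) (fun k => -D n k) (D_bounds n).1 (D_bounds n).2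
      (by rw [abs_neg]; exact (D_bounds n).1) (by rw [abs_neg]; exact (D_bounds n).2) hR
      (fun k h1 h2 => by rw [abs_neg]; exact hR k h1 h2)

theorem sync_main2 (n : ℕ) : SyncI n (fun k => E n k + D n k) (fun k => E n k + YY n k) := by
  rcases Nat.lt_or_ge n 12 with h | h
  · intro k hk
    simp only [E_eC, D_dC, YY_eq]
    exact small2 n h k (by omega) hk
  · have hR := RB_all n h
    exact syncI_of_bounds n (by omega) (D n) (YY n) (D_bounds n).1 (D_bounds n).2
      (Y_bounds n).1 (Y_bounds n).2 hR (Y_int n (by omega))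

theorem sync_main3 (n : ℕ) : SyncI n (fun k => E n k + -D n k) (fun k => E n k + -YY n k) := by
  rcases Nat.lt_or_ge n 12 with h | h
  · intro k hk
    simp only [E_eC, D_dC, YY_eq]
    exact small3 n h k (by omega) hk
  · have hR := RB_all n h
    exact syncI_of_bounds n (by omega) (fun k => -D n k) (fun k => -YY n k)
      (by rw [abs_neg]; exact (D_bounds n).1) (by rw [abs_neg]; exact (D_bounds n).2)
      (by rw [abs_neg]; exact (Y_bounds n).1) (by rw [abs_neg]; exact (Y_bounds n).2)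
      (fun k h1 h2 => by rw [abs_neg]; exact hR k h1 h2)
      (fun k h1 h2 => by rw [abs_neg]; exact Y_int n (by omega) k h1 h2)

end Pool.Agent.Q284.Sync
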