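import Pool.Agent.Q284.Sync.Exc

/-!
# Newton's inequality for the Eulerian numbers
-/

namespace Pool.Agent.Q284.Sync

open Finset
open Pool.Agent.H24R3.Eul

/-- normalised Eulerian numbers `k! (n-k)! E n k` -/
def cN : ℕ → ℕ → ℤ
  | 0, 0 => 1
  | 0, _ + 1 => 0
  | n + 1, 0 => ((n : ℤ) + 1) * cN n 0
  | n + 1, k + 1 => ((k : ℤ) + 2) * ((n : ℤ) - k) * cN n (k + 1) +
      ((k : ℤ) + 1) * ((n : ℤ) + 1 - k) * cN n k

theorem cN_big (n k : ℕ) (h : n < k) : cN n k = 0 := by
  induction n generalizing k with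
  | zero =>
    obtain ⟨k, rfl⟩ : ∃ j, k = j + 1 := ⟨k - 1, by omega⟩
    rfl
  | succ n ih =>
    obtain ⟨k, rfl⟩ : ∃ j, k = j + 1 := ⟨k - 1, by omega⟩
    simp only [cN]
    rw [ih _ (by omega), ih _ (by omega)]
    ring

theorem cN_pos (n k : ℕ) (h : k ≤ n) : 0 < cN n k := by
  induction n generalizing k with
  | zero =>
    obtain rfl : k = 0 := by omega
    simp [cN]
  | succ n ih =>
    cases k with
    | zero =>
      simp only [cN]
      have := ih 0 (by omega)
      positivity
    | succ k =>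
      simp only [cN]
      have h1 := ih k (by omega)
      have h2 : 0 ≤ ((k : ℤ) + 2) * ((n : ℤ) - k) * cN n (k + 1) := by
        rcases Nat.lt_or_ge n (k + 1) with h3 | h3
        · rw [cN_big _ _ h3]; simp
        · have h4 := ih (k + 1) h3
          have h5 : (0 : ℤ) ≤ (n : ℤ) - k := by omega
          positivity
      have h3 : 0 < ((k : ℤ) + 1) * ((n : ℤ) + 1 - k) * cN n k := by
        have h5 : (0 : ℤ) < (n : ℤ) + 1 - k := by omega
        positivity
      linarith

theorem cN_eq (n k : ℕ) (h : k ≤ n) :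
    cN n k = (k.factorial : ℤ) * ((n - k).factorial : ℤ) * E n k := by
  induction n generalizing k with
  | zero =>
    obtain rfl : k = 0 := by omega
    rw [E_zero_zero]; simp [cN]
  | succ n ih =>
    cases k with
    | zero =>
      simp only [cN]
      rw [ih 0 (by omega), E_succ_zero]
      simp only [Nat.sub_zero, Nat.factorial_succ]
      push_cast
      ring
    | succ k =>
      simp only [cN]
      rw [ih k (by omega), E_rec']
      have e1 : n + 1 - (k + 1) = n - k := by omega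
      rw [e1]
      rcases Nat.lt_or_ge n (k + 1) with h3 | h3
      · rw [cN_big _ _ h3, E_big _ _ h3]
        obtain rfl : k = n := by omega
        simp [Nat.factorial_succ]
        ring
      · rw [ih (k + 1) h3]
        obtain ⟨m, rfl⟩ : ∃ m, n = k + 1 + m := ⟨n - (k + 1), by omega⟩
        have e2 : k + 1 + m - (k + 1) = m := by omega
        have e3 : k + 1 + m - k = m + 1 := by omega
        rw [e2, e3, Nat.factorial_succ, Nat.factorial_succ]
        push_cast
        ring

/-- log-concavity of a sum of shifted log-concave terms -/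
theorem lc_step {e0 e1 e2 e3 : ℤ} (h1 : 0 ≤ e1) (h2 : 0 ≤ e2) (h3 : 0 ≤ e3)
    (z1 : e1 = 0 → e2 = 0) (z2 : e2 = 0 → e3 = 0) (l1 : e0 * e2 ≤ e1 ^ 2)
    (l2 : e1 * e3 ≤ e2 ^ 2) : (e0 + e1) * (e2 + e3) ≤ (e1 + e2) ^ 2 := by
  have key : e0 * e3 ≤ e1 * e2 := by
    by_cases hz : e2 = 0
    · rw [z2 hz]; simp; positivity
    · have hz1 : e1 ≠ 0 := fun h => hz (z1 h)
      have p1 : 0 < e1 := lt_of_le_of_ne h1 (Ne.symm hz1)
      have p2 : 0 < e2 := lt_of_le_of_ne h2 (Ne.symm hz)
      have : (e0 * e3) * (e1 * e2) ≤ (e1 * e2) * (e1 * e2) := by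
        calc (e0 * e3) * (e1 * e2) = (e0 * e2) * (e1 * e3) := by ring
          _ ≤ e1 ^ 2 * e2 ^ 2 := mul_le_mul l1 l2 (by positivity) (by positivity)
          _ = _ := by ring
      exact le_of_mul_le_mul_right this (by positivity)
  nlinarith

/-- the weighted sequence -/
def eN (n k : ℕ) : ℤ := ((k : ℤ) + 1) * ((n : ℤ) + 1 - k) * cN n k

theorem eN_nonneg (n k : ℕ) : 0 ≤ eN n k := by
  unfold eN
  rcases Nat.lt_or_ge n k with h | h
  · rw [cN_big _ _ h]; simp
  · have h1 := cN_pos n k h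
    have h2 : (0 : ℤ) ≤ (n : ℤ) + 1 - k := by omega
    positivity

theorem eN_zero_iff (n k : ℕ) : eN n k = 0 → n < k := by
  intro h
  by_contra hk
  push Not at hk
  have h1 := cN_pos n k hk
  have h2 : (0 : ℤ) < (n : ℤ) + 1 - k := by omega
  unfold eN at h
  have : 0 < ((k : ℤ) + 1) * ((n : ℤ) + 1 - k) * cN n k := by positivity
  omega

theorem eN_big (n k : ℕ) (h : n < k) : eN n k = 0 := by
  unfold eN
  rw [cN_big _ _ h]; simp

theorem cN_succ_succ (n k : ℕ) : cN (n + 1) (k + 1) = eN n (k + 1) + eN n k := by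
  simp only [cN, eN]
  push_cast
  ring

theorem cN_succ_zero (n : ℕ) : cN (n + 1) 0 = eN n 0 := by
  simp only [cN, eN]
  push_cast
  ring

theorem cN_lc (n k : ℕ) : cN n k * cN n (k + 2) ≤ cN n (k + 1) ^ 2 := by
  induction n generalizing k with
  | zero =>
    rw [cN_big 0 (k + 2) (by omega)]
    simp
    positivity
  | succ n ih =>
    have hlc : ∀ j, eN n j * eN n (j + 2) ≤ eN n (j + 1) ^ 2 := by
      intro j
      rcases Nat.lt_or_ge n (j + 2) with h | h
      · rw [eN_big _ _ h]; simp; positivity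
      · unfold eN
        have h1 := ih j
        have c0 := cN_pos n j (by omega)
        have c1 := cN_pos n (j + 1) (by omega)
        have c2 := cN_pos n (j + 2) (by omega)
        have a1 : ((j : ℤ) + 1) * ((j + 2 : ℕ) + 1) ≤ (((j + 1 : ℕ) : ℤ) + 1) ^ 2 := by
          push_cast; nlinarith
        have a2 : ((n : ℤ) + 1 - j) * ((n : ℤ) + 1 - (j + 2 : ℕ)) ≤
            ((n : ℤ) + 1 - (j + 1 : ℕ)) ^ 2 := by
          push_cast; nlinarith
        have p2 : (0 : ℤ) ≤ ((n : ℤ) + 1 - j) * ((n : ℤ) + 1 - (j + 2 : ℕ)) := by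
          apply mul_nonneg <;> (push_cast; omega)
        calc _ = (((j : ℤ) + 1) * ((j + 2 : ℕ) + 1)) *
              (((n : ℤ) + 1 - j) * ((n : ℤ) + 1 - (j + 2 : ℕ))) *
              (cN n j * cN n (j + 2)) := by ring
          _ ≤ ((((j + 1 : ℕ) : ℤ) + 1) ^ 2) * (((n : ℤ) + 1 - (j + 1 : ℕ)) ^ 2) *
              (cN n (j + 1) ^ 2) := by
            apply mul_le_mul _ h1 (by positivity) (by positivity)
            exact mul_le_mul a1 a2 p2 (by positivity)
          _ = _ := by ring
    cases k with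
    | zero =>
      rw [cN_succ_zero, cN_succ_succ, cN_succ_succ]
      have := lc_step (e0 := 0) (e1 := eN n 0) (e2 := eN n 1) (e3 := eN n 2)
        (eN_nonneg _ _) (eN_nonneg _ _) (eN_nonneg _ _)
        (fun h => eN_big _ _ (by have := eN_zero_iff _ _ h; omega))
        (fun h => eN_big _ _ (by have := eN_zero_iff _ _ h; omega)) (by simp; positivity) (hlc 0)
      simp only [zero_add] at this ⊢
      linarith
    | succ k =>
      rw [cN_succ_succ, cN_succ_succ, cN_succ_succ]
      have := lc_step (e0 := eN n k) (e1 := eN n (k + 1)) (e2 := eN n (k + 2))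
        (e3 := eN n (k + 3))
        (eN_nonneg _ _) (eN_nonneg _ _) (eN_nonneg _ _)
        (fun h => eN_big _ _ (by have := eN_zero_iff _ _ h; omega))
        (fun h => eN_big _ _ (by have := eN_zero_iff _ _ h; omega)) (hlc k) (hlc (k + 1))
      linarith

/-- Newton's inequality for the Eulerian numbers of `n + 1` elements. -/
theorem newton (n k : ℕ) (hk : k + 2 ≤ n) :
    ((k : ℤ) + 2) * ((n : ℤ) - k) * (E n k * E n (k + 2)) ≤
      ((k : ℤ) + 1) * ((n : ℤ) - k - 1) * E n (k + 1) ^ 2 := by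
  have h := cN_lc n k
  rw [cN_eq n k (by omega), cN_eq n (k + 1) (by omega), cN_eq n (k + 2) (by omega)] at h
  obtain ⟨m, rfl⟩ : ∃ m, n = k + 2 + m := ⟨n - (k + 2), by omega⟩
  have e0 : k + 2 + m - k = m + 2 := by omega
  have e1 : k + 2 + m - (k + 1) = m + 1 := by omega
  have e2 : k + 2 + m - (k + 2) = m := by omega
  rw [e0, e1, e2] at h
  have f1 : ((k + 1).factorial : ℤ) = ((k : ℤ) + 1) * k.factorial := by
    rw [Nat.factorial_succ]; push_cast; ring
  have f2 : ((k + 2).factorial : ℤ) = ((k : ℤ) + 2) * (((k : ℤ) + 1) * k.factorial) := by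
    rw [Nat.factorial_succ, Nat.factorial_succ]; push_cast; ring
  have g1 : ((m + 1).factorial : ℤ) = ((m : ℤ) + 1) * m.factorial := by
    rw [Nat.factorial_succ]; push_cast; ring
  have g2 : ((m + 2).factorial : ℤ) = ((m : ℤ) + 2) * (((m : ℤ) + 1) * m.factorial) := by
    rw [Nat.factorial_succ, Nat.factorial_succ]; push_cast; ring
  rw [f1, f2, g1, g2] at h
  have hkf : (0 : ℤ) < k.factorial := by exact_mod_cast Nat.factorial_pos k
  have hmf : (0 : ℤ) < m.factorial := by exact_mod_cast Nat.factorial_pos m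
  have hc : (0 : ℤ) < (((k : ℤ) + 1) * ((m : ℤ) + 1)) * ((k.factorial : ℤ) ^ 2 * (m.factorial : ℤ) ^ 2) := by
    positivity
  refine le_of_mul_le_mul_left ?_ hc
  push_cast
  calc _ = ((k.factorial : ℤ) * (((m : ℤ) + 2) * (((m : ℤ) + 1) * m.factorial)) * E (k + 2 + m) k) *
        (((k : ℤ) + 2) * (((k : ℤ) + 1) * k.factorial) * (m.factorial : ℤ) * E (k + 2 + m) (k + 2)) := by
        ring
    _ ≤ _ := h
    _ = _ := by ring

end Pool.Agent.Q284.Sync
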