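import Pool.Agent.Q284.Sync.Newt

/-!
# The signed Eulerian numbers are small
-/

namespace Pool.Agent.Q284.Sync

open Finset
open Pool.Agent.H24R3.Eul

/-- computable Eulerian numbers of `n + 1` elements -/
def eC : ℕ → ℕ → ℤ
  | 0, 0 => 1
  | 0, _ + 1 => 0
  | n + 1, 0 => eC n 0
  | n + 1, k + 1 => ((k : ℤ) + 2) * eC n (k + 1) + ((n : ℤ) + 1 - k) * eC n k

theorem E_eC (n k : ℕ) : E n k = eC n k := by
  induction n generalizing k with
  | zero =>
    cases k with
    | zero => rw [E_zero_zero]; rfl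
    | succ k => rw [E_zero_succ]; rfl
  | succ n ih =>
    cases k with
    | zero => rw [E_succ_zero, ih]; rfl
    | succ k => rw [E_rec', ih, ih]; rfl

/-- computable signed Eulerian numbers of `n + 1` elements -/
def dC : ℕ → ℕ → ℤ
  | 0, 0 => 1
  | 0, _ + 1 => 0
  | 1, 0 => 1
  | 1, 1 => -1
  | 1, _ + 2 => 0
  | n + 2, 0 => dC n 0
  | n + 2, 1 => 2 * dC n 1 + (n : ℤ) * dC n 0
  | n + 2, k + 2 => ((k : ℤ) + 3) * dC n (k + 2) +
    ((n : ℤ) - 2 - 2 * k) * dC n (k + 1) - ((n : ℤ) + 1 - k) * dC n k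

theorem D_zero' (k : ℕ) : D 0 k = if k = 0 then 1 else 0 := by
  unfold D
  have h1 : ∀ x : Equiv.Perm (Fin (0 + 1)), x = 1 := by
    intro x
    ext i
    have := (x i).2
    have := ((1 : Equiv.Perm (Fin (0 + 1))) i).2
    omega
  rw [Fintype.sum_eq_single (1 : Equiv.Perm (Fin (0 + 1))) (fun x hx => absurd (h1 x) hx)]
  have : des (1 : Equiv.Perm (Fin (0 + 1))) = 0 := by
    unfold des
    rfl
  rw [this]
  simp [eq_comm]

theorem D_one' (k : ℕ) : D 1 k = if k = 0 then 1 else if k = 1 then -1 else 0 := by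
  unfold D
  have h : (univ : Finset (Equiv.Perm (Fin (1 + 1)))) = {1, Equiv.swap 0 1} := by decide
  rw [h, Finset.sum_insert (by decide), Finset.sum_singleton]
  have h1 : des (1 : Equiv.Perm (Fin (1 + 1))) = 0 := by decide
  have h2 : des (Equiv.swap 0 1 : Equiv.Perm (Fin (1 + 1))) = 1 := by decide
  have h3 : Equiv.Perm.sign (Equiv.swap 0 1 : Equiv.Perm (Fin (1 + 1))) = -1 :=
    Equiv.Perm.sign_swap (by decide)
  rw [h1, h2, h3]
  rcases k with _ | _ | k
  · simp
  · simp
  · simp

theorem D_dC (n k : ℕ) : D n k = dC n k := by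
  induction n using Nat.strong_induction_on generalizing k with
  | _ n ih =>
    match n, k with
    | 0, 0 => rw [D_zero']; rfl
    | 0, k + 1 => rw [D_zero']; rfl
    | 1, 0 => rw [D_one']; rfl
    | 1, 1 => rw [D_one']; rfl
    | 1, k + 2 => rw [D_one']; rfl
    | n + 2, 0 => rw [D_rec_zero, ih n (by omega)]; rfl
    | n + 2, 1 => rw [D_rec_one, ih n (by omega), ih n (by omega)]; rfl
    | n + 2, k + 2 =>
      rw [D_rec, ih n (by omega), ih n (by omega), ih n (by omega)]; rfl

theorem D_big (n k : ℕ) (h : n < k) : D n k = 0 := by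
  induction n using Nat.strong_induction_on generalizing k with
  | _ n ih =>
    match n, k, h with
    | 0, k + 1, _ => rw [D_zero']; simp
    | 1, k + 2, _ => rw [D_one']; simp
    | n + 2, k + 3, h =>
      rw [D_rec, ih n (by omega) _ (by omega), ih n (by omega) _ (by omega),
        ih n (by omega) _ (by omega)]
      ring

theorem D_zero_right (n : ℕ) : D n 0 = 1 := by
  induction n using Nat.strong_induction_on with
  | _ n ih =>
    match n with
    | 0 => rw [D_zero']; simp
    | 1 => rw [D_one']; simp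
    | n + 2 => rw [D_rec_zero, ih n (by omega)]

theorem abs_D_diag (n : ℕ) : |D n n| = 1 := by
  induction n using Nat.strong_induction_on with
  | _ n ih =>
    match n with
    | 0 => rw [D_zero']; simp
    | 1 => rw [D_one']; simp
    | n + 2 =>
      rw [D_rec, D_big n (n + 2) (by omega), D_big n (n + 1) (by omega)]
      have h := ih n (by omega)
      have : ((n : ℤ) + 3) * 0 + ((n : ℤ) - 2 - 2 * n) * 0 - ((n : ℤ) + 1 - n) * D n n =
        - D n n := by ring
      rw [this, abs_neg, h]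

theorem E_zero_right (n : ℕ) : E n 0 = 1 := by
  induction n with
  | zero => exact E_zero_zero
  | succ n ih => rw [E_succ_zero, ih]

theorem E_diag (n : ℕ) : E n n = 1 := by
  induction n with
  | zero => exact E_zero_zero
  | succ n ih =>
    rw [E_rec', ih, E_big n (n + 1) (by omega)]
    ring

theorem E_one_ge (n : ℕ) (hn : 7 ≤ n) : 3 * ((n : ℤ) + 1) ^ 2 ≤ E n 1 := by
  induction n, hn using Nat.le_induction with
  | base => rw [E_eC]; decide
  | succ n hn ih =>
    rw [E_rec', E_zero_right]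
    have hn' : (7 : ℤ) ≤ n := by exact_mod_cast hn
    push_cast
    nlinarith

theorem E_sub_one_ge (n : ℕ) (hn : 7 ≤ n) : 3 * ((n : ℤ) + 1) ^ 2 ≤ E n (n - 1) := by
  induction n, hn using Nat.le_induction with
  | base => rw [E_eC]; decide
  | succ n hn ih =>
    obtain ⟨m, rfl⟩ : ∃ m, n = m + 1 := ⟨n - 1, by omega⟩
    have e : m + 1 + 1 - 1 = m + 1 := by omega
    have e' : m + 1 - 1 = m := by omega
    rw [e'] at ih
    rw [e, E_rec', E_diag]
    have hn' : (6 : ℤ) ≤ m := by exact_mod_cast (by omega : 6 ≤ m)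
    push_cast at ih ⊢
    nlinarith

theorem E_rec2 (n k : ℕ) : E (n + 2) (k + 2) = ((k : ℤ) + 3) ^ 2 * E n (k + 2) +
    (((k : ℤ) + 3) * ((n : ℤ) - k) + ((n : ℤ) + 1 - k) * ((k : ℤ) + 2)) * E n (k + 1) +
    ((n : ℤ) + 1 - k) ^ 2 * E n k := by
  rw [E_rec' (n + 1) (k + 1), E_rec' n (k + 1), E_rec' n k]
  push_cast
  ring

theorem E_rec2_one (n : ℕ) : E (n + 2) 1 = 4 * E n 1 + 3 * (n : ℤ) + 4 := by
  rw [E_rec' (n + 1) 0, E_rec' n 0, E_succ_zero, E_zero_right]
  push_cast
  ring

/-- the ratio bound -/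
def RB (n : ℕ) : Prop := ∀ k, 1 ≤ k → k + 1 ≤ n → 4 * ((n : ℤ) + 1) * |D n k| ≤ E n k

theorem RB_step (n : ℕ) (hn : 7 ≤ n) (h : RB n) : RB (n + 2) := by
  have hn' : (7 : ℤ) ≤ n := by exact_mod_cast hn
  have hN : (0 : ℤ) < (n : ℤ) + 1 := by omega
  intro k hk1 hk2
  have hE1 := E_one_ge n hn
  have hE1' := E_sub_one_ge n hn
  -- multiply by `N`
  refine le_of_mul_le_mul_left ?_ hN
  rcases k with _ | _ | k
  · omega
  · -- k = 1
    have hb := h 1 le_rfl (by omega)
    simp only [zero_add]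
    rw [D_rec_one, E_rec2_one, D_zero_right]
    have h1 : |2 * D n 1 + (n : ℤ) * 1| ≤ 2 * |D n 1| + n := by
      refine (abs_add_le _ _).trans ?_
      rw [abs_mul, mul_one, abs_of_nonneg (show (0 : ℤ) ≤ 2 by norm_num),
        abs_of_nonneg (show (0 : ℤ) ≤ n by positivity)]
    push_cast
    calc ((n : ℤ) + 1) * (4 * ((n : ℤ) + 2 + 1) * |2 * D n 1 + (n : ℤ) * 1|)
        ≤ ((n : ℤ) + 1) * (4 * ((n : ℤ) + 2 + 1) * (2 * |D n 1| + n)) := by gcongr
      _ = 2 * ((n : ℤ) + 3) * (4 * ((n : ℤ) + 1) * |D n 1|) + 4 * n * ((n : ℤ) + 1) * (n + 3) := by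
        ring
      _ ≤ 2 * ((n : ℤ) + 3) * E n 1 + 4 * n * ((n : ℤ) + 1) * (n + 3) := by gcongr
      _ ≤ _ := by nlinarith
  · -- k + 2
    rw [D_rec, E_rec2]
    have hkn : (k : ℤ) + 1 ≤ n := by push_cast at hk2; omega
    have hk0 : (0 : ℤ) ≤ k := by positivity
    have hE0 := E_nonneg n k
    have hEa := E_nonneg n (k + 1)
    have hEb := E_nonneg n (k + 2)
    -- bound for the absolute value
    have habs : |(n : ℤ) - 2 - 2 * k| * 2 ≤
        ((k : ℤ) + 3) * ((n : ℤ) - k) + ((n : ℤ) + 1 - k) * ((k : ℤ) + 2) := by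
      rcases abs_cases ((n : ℤ) - 2 - 2 * k) with ⟨h1, h2⟩ | ⟨h1, h2⟩
      · rw [h1]; nlinarith
      · rw [h1]; nlinarith
    have habs' : |(n : ℤ) - 2 - 2 * k| ≤ n := by
      rw [abs_le]; constructor <;> omega
    have h1 : |((k : ℤ) + 3) * D n (k + 2) + ((n : ℤ) - 2 - 2 * k) * D n (k + 1) -
        ((n : ℤ) + 1 - k) * D n k| ≤ ((k : ℤ) + 3) * |D n (k + 2)| +
        |(n : ℤ) - 2 - 2 * k| * |D n (k + 1)| + ((n : ℤ) + 1 - k) * |D n k| := by
      refine (abs_sub _ _).trans ?_
      have g1 : |((k : ℤ) + 3) * D n (k + 2) + ((n : ℤ) - 2 - 2 * k) * D n (k + 1)| ≤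
          ((k : ℤ) + 3) * |D n (k + 2)| + |(n : ℤ) - 2 - 2 * k| * |D n (k + 1)| := by
        refine (abs_add_le _ _).trans ?_
        rw [abs_mul, abs_mul, abs_of_nonneg (show (0 : ℤ) ≤ (k : ℤ) + 3 by positivity)]
      have g2 : |((n : ℤ) + 1 - k) * D n k| = ((n : ℤ) + 1 - k) * |D n k| := by
        rw [abs_mul, abs_of_nonneg (show (0 : ℤ) ≤ (n : ℤ) + 1 - k by omega)]
      rw [g2]
      linarith
    set K : ℤ := (k : ℤ) with hK
    set X : ℤ := (n : ℤ) with hX
    set a := |X - 2 - 2 * K| with ha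
    have ha0 : 0 ≤ a := abs_nonneg _
    -- the general reduction
    have red : (X + 1) * (4 * (((n + 2 : ℕ) : ℤ) + 1) *
        |(K + 3) * D n (k + 2) + (X - 2 - 2 * K) * D n (k + 1) - (X + 1 - K) * D n k|) ≤
        (X + 3) * ((K + 3) * (4 * (X + 1) * |D n (k + 2)|) + a * (4 * (X + 1) * |D n (k + 1)|) +
          (X + 1 - K) * (4 * (X + 1) * |D n k|)) := by
      have : ((n + 2 : ℕ) : ℤ) + 1 = X + 3 := by push_cast; ring
      rw [this]
      calc _ ≤ (X + 1) * (4 * (X + 3) * ((K + 3) * |D n (k + 2)| + a * |D n (k + 1)| +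
            (X + 1 - K) * |D n k|)) := by gcongr
        _ = _ := by ring
    refine red.trans ?_
    have c1 : (X + 3) * (K + 3) ≤ (X + 1) * (K + 3) ^ 2 := by nlinarith
    have c2 : (X + 3) * a ≤ (X + 1) *
        ((K + 3) * (X - K) + (X + 1 - K) * (K + 2)) := by nlinarith
    have c3 : (X + 3) * (X + 1 - K) ≤ (X + 1) * (X + 1 - K) ^ 2 := by
      have : (X + 3) ≤ (X + 1) * (X + 1 - K) := by nlinarith
      nlinarith
    rcases Nat.eq_zero_or_pos k with h0 | h0
    · -- k = 0
      subst h0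
      have hK0 : K = 0 := by rw [hK]; simp
      rw [D_zero_right, E_zero_right]
      simp only [hK0] at *
      have hb1 := h 1 le_rfl (by omega)
      have hb2 := h 2 (by omega) (by omega)
      have e1 : |(1 : ℤ)| = 1 := abs_one
      rw [e1]
      simp only [zero_add] at *
      calc _ ≤ (X + 3) * (3 * E n 2 + a * E n 1 + (X + 1 - 0) * (4 * (X + 1) * 1)) := by
            gcongr
        _ ≤ _ := by nlinarith
    · rcases Nat.lt_or_ge (k + 2) n with h3 | h3
      · -- all interior
        have hb0 := h k h0 (by omega)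
        have hb1 := h (k + 1) (by omega) (by omega)
        have hb2 := h (k + 2) (by omega) (by omega)
        have p1 : 0 ≤ X + 1 - K := by omega
        calc _ ≤ (X + 3) * ((K + 3) * E n (k + 2) + a * E n (k + 1) + (X + 1 - K) * E n k) := by
              gcongr
          _ = ((X + 3) * (K + 3)) * E n (k + 2) + ((X + 3) * a) * E n (k + 1) +
              ((X + 3) * (X + 1 - K)) * E n k := by ring
          _ ≤ ((X + 1) * (K + 3) ^ 2) * E n (k + 2) + ((X + 1) *
              ((K + 3) * (X - K) + (X + 1 - K) * (K + 2))) * E n (k + 1) +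
              ((X + 1) * (X + 1 - K) ^ 2) * E n k := by gcongr
          _ = _ := by ring
      · rcases Nat.lt_or_ge (k + 1) n with h4 | h4
        · -- k + 2 = n
          obtain rfl : n = k + 2 := by omega
          have hb0 := h k h0 (by omega)
          have hb1 := h (k + 1) (by omega) (by omega)
          rw [abs_D_diag, E_diag]
          have e : k + 2 - 1 = k + 1 := by omega
          rw [e] at hE1'
          have hXK : X = K + 2 := by rw [hX, hK]; push_cast; ring
          have ha' : a ≤ X - 2 := by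
            rw [ha, abs_le]; constructor <;> omega
          have p1 : 0 ≤ X + 1 - K := by omega
          have p2 : 0 ≤ X - 2 := by omega
          calc _ ≤ (X + 3) * ((K + 3) * (4 * (X + 1) * 1) + (X - 2) * E (k + 2) (k + 1) +
                (X + 1 - K) * E (k + 2) k) := by gcongr
            _ ≤ _ := by
              rw [hXK] at hE1' hn' ⊢
              nlinarith
        · -- k + 1 = n
          obtain rfl : n = k + 1 := by omega
          have hb0 := h k h0 (by omega)
          rw [abs_D_diag, E_diag, D_big (k + 1) (k + 2) (by omega),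
            E_big (k + 1) (k + 2) (by omega)]
          have e : k + 1 - 1 = k := by omega
          rw [e] at hE1'
          have hXK : X = K + 1 := by rw [hX, hK]; push_cast; ring
          have ha' : a ≤ X := by
            rw [ha, abs_le]; constructor <;> omega
          have p1 : 0 ≤ X + 1 - K := by omega
          rw [abs_zero]
          calc _ ≤ (X + 3) * ((K + 3) * (4 * (X + 1) * 0) + X * (4 * (X + 1) * 1) +
                (X + 1 - K) * E (k + 1) k) := by gcongr
            _ ≤ _ := by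
              rw [hXK] at hE1' hn' ⊢
              nlinarith

theorem RB_seven : RB 7 := by
  have : ∀ k < 7, 1 ≤ k → 4 * (((7 : ℕ) : ℤ) + 1) * |dC 7 k| ≤ eC 7 k := by decide
  intro k hk1 hk2
  rw [D_dC, E_eC]
  exact this k (by omega) hk1

theorem RB_twelve : RB 12 := by
  have : ∀ k < 12, 1 ≤ k → 4 * (((12 : ℕ) : ℤ) + 1) * |dC 12 k| ≤ eC 12 k := by decide +kernel
  intro k hk1 hk2
  rw [D_dC, E_eC]
  exact this k (by omega) hk1

theorem RB_odd (m : ℕ) : RB (2 * m + 7) := by
  induction m with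
  | zero => exact RB_seven
  | succ m ih => exact RB_step (2 * m + 7) (by omega) ih

theorem RB_even (m : ℕ) : RB (2 * m + 12) := by
  induction m with
  | zero => exact RB_twelve
  | succ m ih => exact RB_step (2 * m + 12) (by omega) ih

theorem RB_all (n : ℕ) (hn : 12 ≤ n) : RB n := by
  rcases Nat.even_or_odd' n with ⟨m, hm | hm⟩
  · have := RB_even (m - 6)
    rwa [show 2 * (m - 6) + 12 = n by omega] at this
  · have := RB_odd (m - 3)
    rwa [show 2 * (m - 3) + 7 = n by omega] at this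

end Pool.Agent.Q284.Sync
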