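import Pool.Agent.H24R3.EulRec

/-!
# Signed Eulerian numbers: two-step recurrence by insertion of the two largest values
-/

namespace Pool.Agent.Q284.Sync

open Finset
open Pool.Agent.H24R3.Eul

/-! ### The sign of an insertion -/

/-- the rearrangement belonging to the insertion place `p` -/
def cyc {n : ℕ} (p : Fin (n + 2)) : Equiv.Perm (Fin (n + 2)) :=
  (finSuccEquiv' p).trans (finSuccEquiv' (Fin.last (n + 1))).symm

theorem cyc_self {n : ℕ} (p : Fin (n + 2)) : cyc p p = Fin.last (n + 1) := by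
  simp [cyc]

theorem cyc_succAbove {n : ℕ} (p : Fin (n + 2)) (i : Fin (n + 1)) :
    cyc p (p.succAbove i) = i.castSucc := by
  simp [cyc]

theorem cyc_val {n : ℕ} (p x : Fin (n + 2)) :
    (cyc p x).val = if x.val < p.val then x.val else if x.val = p.val then n + 1
      else x.val - 1 := by
  by_cases hx : x = p
  · subst hx
    rw [cyc_self]
    simp
  · obtain ⟨i, rfl⟩ := Fin.exists_succAbove_eq hx
    rw [cyc_succAbove]
    unfold Fin.succAbove
    split_ifs with h1 h2 h3 h4 h5 <;> simp only [Fin.lt_def, Fin.val_castSucc, Fin.val_succ] at * <;>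
      omega

theorem cyc_step {n : ℕ} (p : Fin (n + 1)) :
    cyc p.castSucc = cyc p.succ * Equiv.swap p.castSucc p.succ := by
  ext x
  rw [Equiv.Perm.mul_apply, cyc_val, cyc_val]
  have hs : (Equiv.swap p.castSucc p.succ x).val =
      if x.val = p.val then p.val + 1 else if x.val = p.val + 1 then p.val else x.val := by
    rw [Equiv.swap_apply_def]
    simp only [Fin.ext_iff, Fin.val_castSucc, Fin.val_succ]
    split_ifs <;> simp
  rw [hs]
  simp only [Fin.val_castSucc, Fin.val_succ]
  split_ifs <;> omega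

theorem sign_cyc {n : ℕ} (p : Fin (n + 2)) :
    (Equiv.Perm.sign (cyc p) : ℤ) = (-1) ^ (n + 1) * (-1) ^ p.val := by
  refine Fin.reverseInduction ?_ ?_ p
  · have : cyc (Fin.last (n + 1)) = 1 := by
      ext x
      rw [cyc_val]
      simp only [Fin.val_last, Equiv.Perm.one_apply]
      have := x.2
      split_ifs <;> omega
    rw [this, Fin.val_last, ← pow_add]
    simp [Even.neg_one_pow (⟨n + 1, rfl⟩ : Even (n + 1 + (n + 1)))]
  · intro i ih
    rw [cyc_step]
    have hne : i.castSucc ≠ i.succ := by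
      intro h
      have := congrArg Fin.val h
      simp at this
    rw [Equiv.Perm.sign_mul, Equiv.Perm.sign_swap hne]
    push_cast
    rw [ih, Fin.val_succ, Fin.val_castSucc, pow_succ]
    ring

theorem sign_Ph {n : ℕ} (p : Fin (n + 2)) (τ : Equiv.Perm (Fin (n + 1))) :
    (Equiv.Perm.sign (Ph (p, τ)) : ℤ) = (-1) ^ (n + 1) * (-1) ^ p.val * Equiv.Perm.sign τ := by
  have h1 : Equiv.Perm.sign (Ph (p, τ)) = Equiv.Perm.sign τ * Equiv.Perm.sign (cyc p) := by
    unfold Ph cyc
    rw [Equiv.Perm.sign_trans_trans, Equiv.optionCongr_sign]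
  rw [h1]
  push_cast
  rw [sign_cyc]
  ring

/-! ### Insertion places -/

/-- change of the number of descents by an insertion of a large value at the place `p` into a
word of length `n + 1` -/
def al (f : ℕ → ℕ) (n p : ℕ) : ℕ := if p = n + 1 then 0 else if 1 ≤ p ∧ f p < f (p - 1) then 0 else 1

theorem dn_ins (f : ℕ → ℕ) (M p n : ℕ) (hp : p ≤ n + 1) (hM : ∀ i ≤ n, f i < M) :
    dn (ins f p M) (n + 1) = dn f n + al f n p := by
  unfold al
  split_ifs with h1 h2
  · subst h1
    rw [ins_last f M n hM]; rfl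
  · have := ins_mid f M p n (by omega) hM
    rw [if_pos h2] at this
    omega
  · have := ins_mid f M p n (by omega) hM
    rw [if_neg h2] at this
    omega

theorem al_ins (f : ℕ → ℕ) (M p q n : ℕ) (hp : p ≤ n + 1) (hq : q ≤ n + 2)
    (hM : ∀ i ≤ n, f i < M) :
    al (ins f p M) (n + 1) q = if q < p then al f n q else if q = p then 1 else
      if q = p + 1 then 0 else al f n (q - 1) := by
  rcases lt_trichotomy q p with h | h | h
  · rw [if_pos h]
    unfold al
    rw [if_neg (show ¬ q = n + 1 + 1 by omega), if_neg (show ¬ q = n + 1 by omega),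
      ins_lt _ _ _ _ h, ins_lt _ _ _ _ (show q - 1 < p by omega)]
  · subst h
    rw [if_neg (by omega), if_pos rfl]
    unfold al
    rw [if_neg (by omega)]
    by_cases h1 : 1 ≤ q
    · rw [if_neg]
      rintro ⟨_, h2⟩
      rw [ins_eq, ins_lt _ _ _ _ (by omega)] at h2
      have := hM (q - 1) (by omega)
      omega
    · rw [if_neg (by omega)]
  · rw [if_neg (by omega), if_neg (by omega)]
    by_cases h1 : q = p + 1
    · rw [if_pos h1]
      subst h1
      unfold al
      by_cases h2 : p + 1 = n + 1 + 1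
      · rw [if_pos h2]
      · rw [if_neg h2, if_pos]
        refine ⟨by omega, ?_⟩
        rw [ins_gt _ _ _ _ le_rfl]
        have : p + 1 - 1 = p := by omega
        rw [this, ins_eq]
        exact hM p (by omega)
    · rw [if_neg h1]
      obtain ⟨r, rfl⟩ : ∃ r, q = r + 2 := ⟨q - 2, by omega⟩
      unfold al
      have e1 : r + 2 - 1 = r + 1 := by omega
      rw [e1]
      by_cases h2 : r + 2 = n + 1 + 1
      · rw [if_pos h2, if_pos (by omega)]
      · rw [if_neg h2, if_neg (show ¬ r + 1 = n + 1 by omega),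
          ins_gt _ _ _ (r + 1) (show p ≤ r + 1 by omega), ins_gt _ _ _ r (show p ≤ r by omega)]
        have e2 : r + 1 - 1 = r := by omega
        rw [e2]
        simp

/-! ### The cancellation -/

theorem tri_cancel (G : ℕ → ℕ → ℤ) (hG : ∀ p q, G p q = G q p) (L : ℕ) :
    ∑ p ∈ range L, (∑ q ∈ range p, G p q - ∑ q ∈ Ico (p + 1) L, G p q) = 0 := by
  induction L with
  | zero => simp
  | succ L ih =>
    rw [Finset.sum_range_succ]
    have h1 : ∑ p ∈ range L, (∑ q ∈ range p, G p q - ∑ q ∈ Ico (p + 1) (L + 1), G p q) =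
        ∑ p ∈ range L, ((∑ q ∈ range p, G p q - ∑ q ∈ Ico (p + 1) L, G p q) - G p L) := by
      apply Finset.sum_congr rfl
      intro p hp
      rw [mem_range] at hp
      rw [Finset.sum_Ico_succ_top (by omega)]
      ring
    rw [h1, Finset.sum_sub_distrib, ih]
    simp only [Ico_self, sum_empty, sub_zero, zero_sub]
    rw [Finset.sum_congr rfl (fun q _ => hG L q)]
    ring

theorem range_split (F : ℕ → ℤ) (p m : ℕ) (hp : p < m) :
    ∑ q ∈ range (m + 1), F q = ∑ q ∈ range p, F q + F p + F (p + 1) +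
      ∑ q ∈ Ico (p + 1) m, F (q + 1) := by
  have h1 : ∑ q ∈ Ico (p + 1) m, F (q + 1) = ∑ q ∈ Ico (p + 2) (m + 1), F q := by
    rw [Finset.sum_Ico_add' F (p + 1) m 1]
  rw [h1, ← Finset.sum_range_succ, ← Finset.sum_range_succ]
  rw [Finset.range_eq_Ico, Finset.range_eq_Ico, Finset.sum_Ico_consecutive _ (by omega) (by omega)]

/-- the signed double sum over the two insertion places -/
theorem two_step (f : ℕ → ℕ) (n M : ℕ) (hM : ∀ i ≤ n, f i < M) (g : ℕ → ℤ) :
    ∑ p ∈ range (n + 2), ∑ q ∈ range (n + 3), (-1 : ℤ) ^ p * (-1) ^ q *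
      g (dn (ins (ins f p M) q (M + 1)) (n + 2)) =
    ∑ p ∈ range (n + 2), (g (dn f n + al f n p + 1) - g (dn f n + al f n p)) := by
  have hsq : ∀ p : ℕ, (-1 : ℤ) ^ p * (-1) ^ p = 1 := by
    intro p
    rw [← pow_add, ← two_mul, pow_mul]
    simp
  have h1 : ∀ p ∈ range (n + 2), ∑ q ∈ range (n + 3), (-1 : ℤ) ^ p * (-1) ^ q *
      g (dn (ins (ins f p M) q (M + 1)) (n + 2)) =
      (∑ q ∈ range p, (-1 : ℤ) ^ p * (-1) ^ q * g (dn f n + al f n p + al f n q) -
        ∑ q ∈ Ico (p + 1) (n + 2), (-1 : ℤ) ^ p * (-1) ^ q *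
          g (dn f n + al f n p + al f n q)) +
      (g (dn f n + al f n p + 1) - g (dn f n + al f n p)) := by
    intro p hp
    rw [mem_range] at hp
    have hM' : ∀ i ≤ n + 1, ins f p M i < M + 1 := by
      intro i hi
      unfold ins
      split_ifs with h1 h2
      · have := hM i (by omega); omega
      · omega
      · have := hM (i - 1) (by omega); omega
    have h2 : ∀ q ≤ n + 2, dn (ins (ins f p M) q (M + 1)) (n + 2) = dn f n + al f n p +
        (if q < p then al f n q else if q = p then 1 else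
          if q = p + 1 then 0 else al f n (q - 1)) := by
      intro q hq
      rw [dn_ins (ins f p M) (M + 1) q (n + 1) hq hM', dn_ins f M p n (by omega) hM,
        al_ins f M p q n (by omega) hq hM]
    rw [range_split _ p (n + 2) hp]
    have e1 : ∑ q ∈ range p, (-1 : ℤ) ^ p * (-1) ^ q *
        g (dn (ins (ins f p M) q (M + 1)) (n + 2)) =
        ∑ q ∈ range p, (-1 : ℤ) ^ p * (-1) ^ q * g (dn f n + al f n p + al f n q) := by
      apply Finset.sum_congr rfl
      intro q hq
      rw [mem_range] at hq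
      rw [h2 q (by omega), if_pos hq]
    have e2 : (-1 : ℤ) ^ p * (-1) ^ p * g (dn (ins (ins f p M) p (M + 1)) (n + 2)) =
        g (dn f n + al f n p + 1) := by
      rw [h2 p (by omega), if_neg (by omega), if_pos rfl, hsq, one_mul]
    have e3 : (-1 : ℤ) ^ p * (-1) ^ (p + 1) *
        g (dn (ins (ins f p M) (p + 1) (M + 1)) (n + 2)) = - g (dn f n + al f n p) := by
      rw [h2 (p + 1) (by omega), if_neg (by omega), if_neg (by omega), if_pos rfl, pow_succ,
        ← mul_assoc, hsq]
      simp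
    have e4 : ∑ q ∈ Ico (p + 1) (n + 2), (-1 : ℤ) ^ p * (-1) ^ (q + 1) *
        g (dn (ins (ins f p M) (q + 1) (M + 1)) (n + 2)) =
        - ∑ q ∈ Ico (p + 1) (n + 2), (-1 : ℤ) ^ p * (-1) ^ q *
          g (dn f n + al f n p + al f n q) := by
      rw [← Finset.sum_neg_distrib]
      apply Finset.sum_congr rfl
      intro q hq
      rw [mem_Ico] at hq
      rw [h2 (q + 1) (by omega), if_neg (by omega), if_neg (by omega), if_neg (by omega),
        Nat.add_sub_cancel, pow_succ]
      ring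
    rw [e1, e2, e3, e4]
    ring
  rw [Finset.sum_congr rfl h1, Finset.sum_add_distrib, tri_cancel (fun p q =>
    (-1 : ℤ) ^ p * (-1) ^ q * g (dn f n + al f n p + al f n q)) (fun p q => by
      rw [add_right_comm, mul_comm ((-1 : ℤ) ^ p)]), zero_add]

/-- summation over the insertion places -/
theorem sum_al (f : ℕ → ℕ) (n : ℕ) (h : ℕ → ℤ) :
    ∑ p ∈ range (n + 2), h (al f n p) =
      ((dn f n : ℤ) + 1) * h 0 + ((n : ℤ) + 1 - dn f n) * h 1 := by
  rw [Finset.sum_range_succ, Finset.sum_range_succ']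
  have h0 : al f n (n + 1) = 0 := by unfold al; rw [if_pos rfl]
  have h1 : al f n 0 = 1 := by
    unfold al; rw [if_neg (by omega), if_neg (by omega)]
  have h2 : ∀ q ∈ range n, h (al f n (q + 1)) =
      (if f (q + 1) < f q then (1 : ℤ) else 0) * (h 0 - h 1) + h 1 := by
    intro q hq
    rw [mem_range] at hq
    unfold al
    rw [if_neg (by omega), Nat.add_sub_cancel]
    simp only [Nat.le_add_left, true_and]
    split_ifs <;> ring
  rw [h0, h1, Finset.sum_congr rfl h2, Finset.sum_add_distrib, ← Finset.sum_mul]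
  have h3 : ∑ q ∈ range n, (if f (q + 1) < f q then (1 : ℤ) else 0) = dn f n := by
    unfold dn
    push_cast
    rfl
  rw [h3]
  simp only [Finset.sum_const, Finset.card_range, nsmul_eq_mul]
  ring

/-- signed Eulerian numbers of `n + 1` elements -/
noncomputable def D (n k : ℕ) : ℤ :=
  ∑ τ : Equiv.Perm (Fin (n + 1)), (Equiv.Perm.sign τ : ℤ) * (if des τ = k then 1 else 0)

theorem signed_rec (n : ℕ) (g : ℕ → ℤ) :
    ∑ σ : Equiv.Perm (Fin (n + 3)), (Equiv.Perm.sign σ : ℤ) * g (des σ) =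
      ∑ τ : Equiv.Perm (Fin (n + 1)), (Equiv.Perm.sign τ : ℤ) *
        (((des τ : ℤ) + 1) * (g (des τ) - g (des τ + 1)) +
          ((n : ℤ) + 1 - des τ) * (g (des τ + 1) - g (des τ + 2))) := by
  rw [← Function.Bijective.sum_comp (Ph_bij (n := n + 1))
    (fun σ => (Equiv.Perm.sign σ : ℤ) * g (des σ)), Fintype.sum_prod_type_right]
  rw [← Function.Bijective.sum_comp (Ph_bij (n := n)), Fintype.sum_prod_type_right]
  apply Finset.sum_congr rfl
  intro τ _
  have hM : ∀ i ≤ n, vf τ i < n + 1 := by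
    intro i hi
    have := vf_val τ ⟨i, by omega⟩
    simp only at this
    rw [this]
    exact (τ ⟨i, by omega⟩).2
  have h1 : ∀ (p : Fin (n + 2)) (q : Fin (n + 3)),
      (Equiv.Perm.sign (Ph (q, Ph (p, τ))) : ℤ) * g (des (Ph (q, Ph (p, τ)))) =
      -(Equiv.Perm.sign τ : ℤ) * ((-1 : ℤ) ^ p.val * (-1) ^ q.val *
        g (dn (ins (ins (vf τ) p.val (n + 1)) q.val (n + 1 + 1)) (n + 2))) := by
    intro p q
    rw [sign_Ph, sign_Ph, des_Ph]
    have h2 : dn (ins (vf (Ph (p, τ))) q.val (n + 1 + 1)) (n + 1 + 1) =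
        dn (ins (ins (vf τ) p.val (n + 1)) q.val (n + 1 + 1)) (n + 2) := by
      unfold dn
      apply Finset.sum_congr rfl
      intro i hi
      rw [mem_range] at hi
      have h3 : ∀ j ≤ n + 1 + 1, ins (vf (Ph (p, τ))) q.val (n + 1 + 1) j =
          ins (ins (vf τ) p.val (n + 1)) q.val (n + 1 + 1) j := by
        intro j hj
        unfold ins
        have e : ∀ l ≤ n + 1, vf (Ph (p, τ)) l = if l < p.val then vf τ l else
            if l = p.val then n + 1 else vf τ (l - 1) := by
          intro l hl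
          rw [vf_Ph p τ l hl]; rfl
        have hq := q.2
        split_ifs with g1 g2 g3 g4 g5 g6
        · rw [e j (by omega), if_pos g2]
        · rw [e j (by omega), if_neg g2, if_pos g3]
        · rw [e j (by omega), if_neg g2, if_neg g3]
        · rfl
        · rw [e (j - 1) (by omega), if_pos g5]
        · rw [e (j - 1) (by omega), if_neg g5, if_pos g6]
        · rw [e (j - 1) (by omega), if_neg g5, if_neg g6]
      rw [h3 i (by omega), h3 (i + 1) (by omega)]
    rw [h2]
    have h4 : (-1 : ℤ) ^ (n + 1 + 1) * (-1) ^ (n + 1) = -1 := by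
      rw [← pow_add]
      exact Odd.neg_one_pow ⟨n + 1, by ring⟩
    calc _ = ((-1 : ℤ) ^ (n + 1 + 1) * (-1) ^ (n + 1)) * ((Equiv.Perm.sign τ : ℤ) *
          ((-1 : ℤ) ^ p.val * (-1) ^ q.val *
        g (dn (ins (ins (vf τ) p.val (n + 1)) q.val (n + 1 + 1)) (n + 2)))) := by ring
      _ = _ := by rw [h4]; ring
  simp only [h1]
  simp only [← Finset.mul_sum]
  rw [← Finset.sum_range (fun p : ℕ => ∑ q : Fin (n + 3), (-1 : ℤ) ^ p * (-1) ^ q.val *
        g (dn (ins (ins (vf τ) p (n + 1)) q.val (n + 1 + 1)) (n + 2)))]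
  have h6 : ∀ p : ℕ, ∑ q : Fin (n + 3), (-1 : ℤ) ^ p * (-1) ^ q.val *
        g (dn (ins (ins (vf τ) p (n + 1)) q.val (n + 1 + 1)) (n + 2)) =
      ∑ q ∈ range (n + 3), (-1 : ℤ) ^ p * (-1) ^ q *
        g (dn (ins (ins (vf τ) p (n + 1)) q (n + 1 + 1)) (n + 2)) := fun p =>
    (Finset.sum_range (fun q : ℕ => (-1 : ℤ) ^ p * (-1) ^ q *
        g (dn (ins (ins (vf τ) p (n + 1)) q (n + 1 + 1)) (n + 2)))).symm
  simp only [h6]
  rw [two_step (vf τ) n (n + 1) hM g, des_dn]
  have h5 := sum_al (vf τ) n (fun a => g (dn (vf τ) n + a + 1) - g (dn (vf τ) n + a))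
  rw [h5]
  ring_nf

theorem D_rec (n k : ℕ) : D (n + 2) (k + 2) = ((k : ℤ) + 3) * D n (k + 2) +
    ((n : ℤ) - 2 - 2 * k) * D n (k + 1) - ((n : ℤ) + 1 - k) * D n k := by
  unfold D
  rw [signed_rec n (fun d => if d = k + 2 then 1 else 0), Finset.mul_sum, Finset.mul_sum,
    Finset.mul_sum, ← Finset.sum_add_distrib, ← Finset.sum_sub_distrib]
  apply Finset.sum_congr rfl
  intro τ _
  by_cases h2 : des τ = k + 2
  · rw [h2]; simp; ring
  · by_cases h1 : des τ = k + 1
    · rw [h1]; simp; ring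
    · by_cases h0 : des τ = k
      · rw [h0]; simp; ring
      · simp [h0, h1, h2]

theorem D_rec_one (n : ℕ) : D (n + 2) 1 = 2 * D n 1 + (n : ℤ) * D n 0 := by
  unfold D
  rw [signed_rec n (fun d => if d = 1 then 1 else 0), Finset.mul_sum, Finset.mul_sum,
    ← Finset.sum_add_distrib]
  apply Finset.sum_congr rfl
  intro τ _
  by_cases h1 : des τ = 1
  · rw [h1]; simp; ring
  · by_cases h0 : des τ = 0
    · rw [h0]; simp; ring
    · simp [h0, h1]

theorem D_rec_zero (n : ℕ) : D (n + 2) 0 = D n 0 := by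
  unfold D
  rw [signed_rec n (fun d => if d = 0 then 1 else 0)]
  apply Finset.sum_congr rfl
  intro τ _
  by_cases h0 : des τ = 0
  · rw [h0]; simp
  · simp [h0]

end Pool.Agent.Q284.Sync
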